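import Mathlib

set_option autoImplicit false

universe u

namespace Pool.Agent.Helper4.TSpace

/-- A linear algebra over the field `K`, not necessarily associative (and without unit). -/
structure NAlgebra (K : Type u) [Field K] : Type (u + 1) where
  carrier : Type u
  [ring : NonUnitalNonAssocRing carrier]
  [module : Module K carrier]
  [isScalarTower : IsScalarTower K carrier carrier]
  [smulCommClass : SMulCommClass K carrier carrier]

attribute [instance] NAlgebra.ring NAlgebra.module NAlgebra.isScalarTower NAlgebra.smulCommClass

/-- Nonassociative polynomials over `K` in countably many variables, without constant term. -/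
abbrev Poly (K : Type u) [Field K] : Type u := FreeNonUnitalNonAssocAlgebra K ℕ

variable {K : Type u} [Field K]

/-- The value of the nonassociative polynomial `f` at the sequence `b` of elements of `B`. -/
noncomputable def value (B : NAlgebra K) (b : ℕ → B.carrier) (f : Poly K) : B.carrier :=
  FreeNonUnitalNonAssocAlgebra.lift K b f

/-- `B` lies in the variety of algebras defined by the set `E` of nonassociative polynomials: every
element of `E` vanishes under every substitution of elements of `B` for the variables. -/
def InVariety (E : Set (Poly K)) (B : NAlgebra K) : Prop :=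
  ∀ f ∈ E, ∀ b : ℕ → B.carrier, value B b f = 0

/-- The set of all identities of the algebra `B`. The variety defined by `identities B` is the
variety generated by `B`. -/
def identities (B : NAlgebra K) : Set (Poly K) :=
  {f | ∀ b : ℕ → B.carrier, value B b f = 0}

/-- `F` is a free algebra of the variety defined by `E`, on the free generators
`x 0, x 1, x 2, ...`. -/
def IsFreeAlgebra (E : Set (Poly K)) (F : NAlgebra K)
    (x : ℕ → F.carrier) : Prop :=
  InVariety E F ∧ ∀ B : NAlgebra K, InVariety E B →
    ∀ b : ℕ → B.carrier, ∃! φ : F.carrier →ₙₐ[K] B.carrier, ∀ i, φ (x i) = b i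

/-- `F(d)`: the subalgebra of `F` generated by the first `d` free generators. -/
def firstGens (F : NAlgebra K) (x : ℕ → F.carrier) (d : ℕ) : NonUnitalSubalgebra K F.carrier :=
  NonUnitalAlgebra.adjoin K (x '' {i | i < d})

/-- The set of all identities of the subalgebra `S` of `F`. -/
def subIdentities (F : NAlgebra K) (S : NonUnitalSubalgebra K F.carrier) : Set (Poly K) :=
  {f | ∀ b : ℕ → F.carrier, (∀ i, b i ∈ S) → value F b f = 0}

/-- The variety defined by `E`, with free algebra `F` on `x`, has finite base rank: it is generated,
as a variety, by the free algebra `F(m)` for some finite `m`. -/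
def FiniteBaseRank (E : Set (Poly K)) (F : NAlgebra K)
    (x : ℕ → F.carrier) : Prop :=
  ∃ m : ℕ, ∀ B : NAlgebra K, InVariety E B ↔ InVariety (subIdentities F (firstGens F x m)) B

/-- The linear span of all elements obtained from elements of `S` by substituting arbitrary elements
of `F` for the free generators, that is, by applying endomorphisms of `F`. -/
def bar (F : NAlgebra K) (S : Set F.carrier) : Submodule K F.carrier :=
  Submodule.span K {y | ∃ f ∈ S, ∃ φ : F.carrier →ₙₐ[K] F.carrier, y = φ f}

/-- `V` is a T-space in `F(d)`. -/
def IsTSpace (F : NAlgebra K) (x : ℕ → F.carrier) (d : ℕ) (V : Submodule K F.carrier) : Prop :=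
  V = bar F V ⊓ (firstGens F x d).toSubmodule

/-- The T-space `V` in `F(d)` has a finite base. -/
def HasFiniteBase (F : NAlgebra K) (x : ℕ → F.carrier) (d : ℕ) (V : Submodule K F.carrier) :
    Prop :=
  ∃ S : Set F.carrier, S.Finite ∧ S ⊆ V ∧ V = bar F S ⊓ (firstGens F x d).toSubmodule

end Pool.Agent.Helper4.TSpace
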