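import Pool.Agent.Helper4.TSpaceDefs

set_option autoImplicit false

universe u

namespace Pool.Agent.Helper4.TSpace

open FreeNonUnitalNonAssocAlgebra

/-- The two-dimensional algebra with basis `e, v` and products `e*e = v`, `v*e = v`, `e*v = -v`,
`v*v = 0`; the pair `(a, b)` stands for `a e + b v`. -/
def Alg (K : Type u) : Type u := K × K

namespace Alg
variable (K : Type u) [Field K]

instance : AddCommGroup (Alg K) := inferInstanceAs (AddCommGroup (K × K))
instance : Module K (Alg K) := inferInstanceAs (Module K (K × K))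

instance : Mul (Alg K) := ⟨fun p q => ((0 : K), p.1 * q.1 + p.2 * q.1 - p.1 * q.2)⟩

variable {K}

theorem mul_fst (p q : Alg K) : (p * q).1 = 0 := rfl
theorem mul_snd (p q : Alg K) : (p * q).2 = p.1 * q.1 + p.2 * q.1 - p.1 * q.2 := rfl
theorem add_fst (p q : Alg K) : (p + q).1 = p.1 + q.1 := rfl
theorem add_snd (p q : Alg K) : (p + q).2 = p.2 + q.2 := rfl
theorem smul_fst (c : K) (q : Alg K) : (c • q).1 = c * q.1 := rfl
theorem smul_snd (c : K) (q : Alg K) : (c • q).2 = c * q.2 := rfl
theorem zero_fst : (0 : Alg K).1 = 0 := rfl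
theorem zero_snd : (0 : Alg K).2 = 0 := rfl

omit [Field K] in
theorem ext' {p q : Alg K} (h1 : p.1 = q.1) (h2 : p.2 = q.2) : p = q := Prod.ext h1 h2

instance : NonUnitalNonAssocRing (Alg K) :=
  { (inferInstance : AddCommGroup (Alg K)), (inferInstance : Mul (Alg K)) with
    left_distrib := by
      intro a b c
      apply ext'
      · simp only [mul_fst, add_fst, add_zero]
      · simp only [mul_snd, add_snd, add_fst]; ring
    right_distrib := by
      intro a b c
      apply ext'
      · simp only [mul_fst, add_fst, add_zero]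
      · simp only [mul_snd, add_snd, add_fst]; ring
    zero_mul := by
      intro a
      apply ext'
      · simp only [mul_fst, zero_fst]
      · simp only [mul_snd, zero_snd, zero_fst]; ring
    mul_zero := by
      intro a
      apply ext'
      · simp only [mul_fst, zero_fst]
      · simp only [mul_snd, zero_snd, zero_fst]; ring }

instance : IsScalarTower K (Alg K) (Alg K) := ⟨by
  intro c p q
  show (c • p) * q = c • (p * q)
  apply ext'
  · simp only [mul_fst, smul_fst, mul_zero]
  · simp only [mul_snd, smul_snd, smul_fst]; ring⟩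

instance : SMulCommClass K (Alg K) (Alg K) := ⟨by
  intro c p q
  show c • (p * q) = p * (c • q)
  apply ext'
  · simp only [mul_fst, smul_fst, mul_zero]
  · simp only [mul_snd, smul_snd, smul_fst]; ring⟩

theorem finrank_eq : Module.finrank K (Alg K) = 2 := by
  show Module.finrank K (K × K) = 2
  simp

end Alg

variable (K : Type u) [Field K]

/-- Functions from sequences in the algebra to the algebra. -/
abbrev Gen := (ℕ → Alg K) → Alg K

/-- The coordinate projections. -/
def proj (i : ℕ) : Gen K := fun p => p i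

/-- evaluation homomorphism from the absolutely free algebra -/
noncomputable def evG : FreeNonUnitalNonAssocAlgebra K ℕ →ₙₐ[K] Gen K := lift K (proj K)

/-- The relatively free algebra: the algebra of functions generated by the projections. -/
noncomputable abbrev FS : NonUnitalSubalgebra K (Gen K) := NonUnitalAlgHom.range (evG K)

/-- The relatively free algebra as a type. -/
def FA : Type u := ↥(FS K)

noncomputable instance : NonUnitalNonAssocRing (FA K) :=
  inferInstanceAs (NonUnitalNonAssocRing ↥(FS K))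
noncomputable instance : Module K (FA K) := inferInstanceAs (Module K ↥(FS K))
instance : IsScalarTower K (FA K) (FA K) := inferInstanceAs (IsScalarTower K ↥(FS K) ↥(FS K))
instance : SMulCommClass K (FA K) (FA K) := inferInstanceAs (SMulCommClass K ↥(FS K) ↥(FS K))

/-- the two-dimensional algebra, bundled -/
abbrev BA : NAlgebra K := ⟨Alg K⟩

/-- the free algebra, bundled -/
noncomputable abbrev BF : NAlgebra K := ⟨FA K⟩

theorem evG_of (i : ℕ) : evG K (of K i) = proj K i := lift_of_apply (R := K) (proj K) i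

/-- The free generators. -/
noncomputable def X (i : ℕ) : FA K := ⟨proj K i, ⟨of K i, evG_of K i⟩⟩

/-- the inclusion -/
noncomputable def inc : FA K →ₙₐ[K] Gen K := NonUnitalSubalgebraClass.subtype (FS K)

/-- point evaluation as a homomorphism -/
def pt (p : ℕ → Alg K) : Gen K →ₙₐ[K] Alg K where
  toFun g := g p
  map_smul' _ _ := rfl
  map_zero' := rfl
  map_add' _ _ := rfl
  map_mul' _ _ := rfl

variable {K}

theorem pt_apply (p : ℕ → Alg K) (g : Gen K) : pt K p g = g p := rfl

theorem evG_apply (f : FreeNonUnitalNonAssocAlgebra K ℕ) (p : ℕ → Alg K) :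
    evG K f p = lift K p f := by
  have : (pt K p).comp (evG K) = lift K p := by
    apply FreeNonUnitalNonAssocAlgebra.hom_ext
    intro i
    show pt K p (evG K (of K i)) = lift K p (of K i)
    rw [evG_of, lift_of_apply]
    rfl
  rw [← this]
  rfl

/-- the free algebra on `X` receives the evaluation -/
theorem lift_X (f : FreeNonUnitalNonAssocAlgebra K ℕ) :
    inc K (lift K (X K) f) = evG K f := by
  have : (inc K).comp (lift K (X K)) = evG K := by
    apply FreeNonUnitalNonAssocAlgebra.hom_ext
    intro i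
    show inc K (lift K (X K) (of K i)) = _
    rw [evG_of, lift_of_apply]
    rfl
  rw [← this]
  rfl

theorem exists_lift (y : FA K) : ∃ f, lift K (X K) f = y := by
  obtain ⟨f, hf⟩ := y.2
  refine ⟨f, ?_⟩
  apply Subtype.ext
  exact (lift_X f).trans hf

/-- value at a point -/
noncomputable def val (p : ℕ → Alg K) : FA K →ₙₐ[K] Alg K :=
  (pt K p).comp (inc K)

theorem val_apply (p : ℕ → Alg K) (y : FA K) : val p y = inc K y p := rfl

theorem val_X (p : ℕ → Alg K) (i : ℕ) : val p (X K i) = p i := rfl

theorem val_lift (p : ℕ → Alg K) (f : FreeNonUnitalNonAssocAlgebra K ℕ) :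
    val p (lift K (X K) f) = lift K p f := by
  rw [val_apply, lift_X, evG_apply]

theorem FA_ext {y z : FA K} (h : ∀ p, val p y = val p z) : y = z := by
  apply Subtype.ext
  funext p
  exact h p

theorem hom_ext_FA {B : Type u} [NonUnitalNonAssocRing B] [Module K B] [IsScalarTower K B B]
    [SMulCommClass K B B] {φ ψ : FA K →ₙₐ[K] B} (h : ∀ i, φ (X K i) = ψ (X K i)) : φ = ψ := by
  have : φ.comp (lift K (X K)) = ψ.comp (lift K (X K)) := by
    apply FreeNonUnitalNonAssocAlgebra.hom_ext
    intro i
    simpa using h i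
  ext y
  obtain ⟨f, rfl⟩ := exists_lift y
  exact congrArg (fun θ => θ f) this

theorem lift_comp' {B C : Type u} [NonUnitalNonAssocRing B] [Module K B] [IsScalarTower K B B]
    [SMulCommClass K B B] [NonUnitalNonAssocRing C] [Module K C] [IsScalarTower K C C]
    [SMulCommClass K C C] (φ : B →ₙₐ[K] C) (b : ℕ → B) (f : FreeNonUnitalNonAssocAlgebra K ℕ) :
    φ (lift K b f) = lift K (fun i => φ (b i)) f := by
  have : φ.comp (lift K b) = lift K (fun i => φ (b i)) := by
    apply FreeNonUnitalNonAssocAlgebra.hom_ext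
    intro i
    simp
  rw [← this]
  rfl

theorem inVariety_FA : InVariety (identities (BA K)) (BF K) := by
  intro f hf b
  apply FA_ext
  intro p
  change val p (lift K (A := FA K) b f) = _
  rw [lift_comp' (val p) b f, map_zero]
  exact hf _

/-- The map out of the relatively free algebra. -/
theorem exists_hom {B : NAlgebra K} (hB : InVariety (identities (BA K)) B) (b : ℕ → B.carrier) :
    ∃ φ : FA K →ₙₐ[K] B.carrier, ∀ f, φ (lift K (X K) f) = lift K b f := by
  classical
  have hwd : ∀ f g : FreeNonUnitalNonAssocAlgebra K ℕ, lift K (X K) f = lift K (X K) g →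
      lift K b f = lift K b g := by
    intro f g hfg
    have hmem : f - g ∈ identities (BA K) := by
      intro p
      change lift K (A := Alg K) p (f - g) = 0
      rw [map_sub, ← val_lift, ← val_lift, hfg, sub_self]
    have := hB _ hmem b
    change lift K b (f - g) = 0 at this
    rw [map_sub, sub_eq_zero] at this
    exact this
  choose s hs using (exists_lift (K := K))
  refine ⟨⟨⟨⟨fun y => lift K b (s y), ?_⟩, ?_, ?_⟩, ?_⟩, ?_⟩
  · intro c y
    show lift K b (s (c • y)) = c • lift K b (s y)
    rw [← map_smul]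
    apply hwd
    rw [hs, map_smul, hs]
  · show lift K b (s 0) = 0
    rw [← map_zero (lift K b)]
    apply hwd
    rw [hs, map_zero]
  · intro y z
    show lift K b (s (y + z)) = lift K b (s y) + lift K b (s z)
    rw [← map_add]
    apply hwd
    rw [hs, map_add, hs, hs]
  · intro y z
    show lift K b (s (y * z)) = lift K b (s y) * lift K b (s z)
    rw [← map_mul]
    apply hwd
    rw [hs, map_mul, hs, hs]
  · intro f
    show lift K b (s (lift K (X K) f)) = lift K b f
    apply hwd
    rw [hs]

theorem isFree : IsFreeAlgebra (identities (BA K)) (BF K) (X K) := by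
  refine ⟨inVariety_FA, ?_⟩
  intro B hB b
  obtain ⟨φ, hφ⟩ := exists_hom hB b
  have h1 : ∀ i, φ (X K i) = b i := by
    intro i
    have := hφ (of K i)
    simpa using this
  refine ⟨φ, h1, ?_⟩
  intro ψ hψ
  apply hom_ext_FA
  intro i
  rw [hψ, h1]

/-- the generator e of the algebra -/
def eA : Alg K := ((1 : K), (0 : K))

theorem mem_adjoin_e (a : Alg K) : a ∈ NonUnitalAlgebra.adjoin K ({eA} : Set (Alg K)) := by
  have he : (eA : Alg K) ∈ NonUnitalAlgebra.adjoin K ({eA} : Set (Alg K)) :=
    NonUnitalAlgebra.self_mem_adjoin_singleton K eA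
  have hv : (eA * eA : Alg K) ∈ NonUnitalAlgebra.adjoin K ({eA} : Set (Alg K)) := mul_mem he he
  have : a = a.1 • eA + a.2 • (eA * eA) := by
    apply Alg.ext'
    · rw [Alg.add_fst, Alg.smul_fst, Alg.smul_fst, Alg.mul_fst]; simp [eA]
    · rw [Alg.add_snd, Alg.smul_snd, Alg.smul_snd, Alg.mul_snd]; simp [eA]
  rw [this]
  exact add_mem (SMulMemClass.smul_mem _ he) (SMulMemClass.smul_mem _ hv)

theorem finiteBaseRank : FiniteBaseRank (identities (BA K)) (BF K) (X K) := by
  refine ⟨1, ?_⟩
  intro B
  have hset : identities (BA K) = subIdentities (BF K) (firstGens (BF K) (X K) 1) := by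
    apply Set.Subset.antisymm
    · intro f hf b _
      exact inVariety_FA f hf b
    · intro f hf a
      -- the evaluation at the constant point e is onto from F(1)
      have honto : ∀ c : Alg K, ∃ y : FA K, y ∈ firstGens (BF K) (X K) 1 ∧
          val (fun _ => eA) y = c := by
        intro c
        have hc := mem_adjoin_e c
        have hmap : NonUnitalSubalgebra.map (val (fun _ => (eA : Alg K)))
            (firstGens (BF K) (X K) 1) = NonUnitalAlgebra.adjoin K ({eA} : Set (Alg K)) := by
          rw [firstGens, NonUnitalAlgHom.map_adjoin]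
          congr 1
          ext z
          constructor
          · rintro ⟨w, ⟨i, hi, rfl⟩, rfl⟩
            rfl
          · intro hz
            rw [Set.mem_singleton_iff] at hz
            subst hz
            exact ⟨X K 0, ⟨0, by simp, rfl⟩, rfl⟩
        rw [← hmap, NonUnitalSubalgebra.mem_map] at hc
        obtain ⟨y, hy, hyc⟩ := hc
        exact ⟨y, hy, hyc⟩
      choose t ht1 ht2 using honto
      have h1 : lift K (A := FA K) (fun i => t (a i)) f = 0 :=
        hf (fun i => t (a i)) (fun i => ht1 (a i))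
      change lift K (A := Alg K) a f = 0
      have h3 := lift_comp' (val (fun _ => (eA : Alg K))) (fun i => t (a i)) f
      have h4 : (fun i => val (fun _ => (eA : Alg K)) (t (a i))) = a := by
        funext i
        exact ht2 (a i)
      rw [h4] at h3
      rw [← h3, h1, map_zero]
  rw [hset]

/-- Functions whose first coordinate is a linear form in the first coordinates of the arguments. -/
def Slin : NonUnitalSubalgebra K (Gen K) where
  carrier := {g | ∃ L : (ℕ → K) →ₗ[K] K, ∀ p : ℕ → Alg K, (g p).1 = L (fun i => (p i).1)}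
  add_mem' := by
    rintro a b ⟨L, hL⟩ ⟨M, hM⟩
    refine ⟨L + M, fun p => ?_⟩
    show (a p + b p).1 = _
    rw [Alg.add_fst, hL, hM]; rfl
  zero_mem' := ⟨0, fun p => rfl⟩
  mul_mem' := by
    rintro a b _ _
    exact ⟨0, fun p => rfl⟩
  smul_mem' := by
    rintro c a ⟨L, hL⟩
    refine ⟨c • L, fun p => ?_⟩
    show (c • a p).1 = _
    rw [Alg.smul_fst, hL]; rfl

theorem proj_mem_Slin (i : ℕ) : proj K i ∈ (Slin : NonUnitalSubalgebra K (Gen K)) :=
  ⟨LinearMap.proj i, fun _ => rfl⟩

theorem evG_mem_Slin (f : FreeNonUnitalNonAssocAlgebra K ℕ) :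
    evG K f ∈ (Slin : NonUnitalSubalgebra K (Gen K)) := by
  have : (NonUnitalSubalgebraClass.subtype (Slin : NonUnitalSubalgebra K (Gen K))).comp
      (lift K (fun i => (⟨proj K i, proj_mem_Slin i⟩ : (Slin : NonUnitalSubalgebra K (Gen K)))))
      = evG K := by
    apply FreeNonUnitalNonAssocAlgebra.hom_ext
    intro i
    show (NonUnitalSubalgebraClass.subtype (Slin : NonUnitalSubalgebra K (Gen K)))
      (lift K (fun i => (⟨proj K i, proj_mem_Slin i⟩ : (Slin : NonUnitalSubalgebra K (Gen K))))
        (of K i)) = _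
    rw [evG_of, lift_of_apply]
    rfl
  rw [← this]
  exact ((lift K (fun i => (⟨proj K i, proj_mem_Slin i⟩ :
    (Slin : NonUnitalSubalgebra K (Gen K)))) f)).2

theorem exists_lin (y : FA K) : ∃ L : (ℕ → K) →ₗ[K] K, ∀ p : ℕ → Alg K,
    (val p y).1 = L (fun i => (p i).1) := by
  obtain ⟨f, rfl⟩ := exists_lift y
  obtain ⟨L, hL⟩ := evG_mem_Slin f
  refine ⟨L, fun p => ?_⟩
  rw [val_apply, lift_X]
  exact hL p

/-- The elements given by a function of degree at most `N` of the first coordinates, in direction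
`v`. -/
def W (N : ℕ) : Submodule K (FA K) where
  carrier := {y | ∃ G : (ℕ → K) → K, (∀ p, val p y = ((0 : K), G (fun i => (p i).1))) ∧
    ∀ q : ℕ → K, ∃ P : Polynomial K, P.natDegree ≤ N ∧ ∀ t : K, G (fun i => t * q i) = P.eval t}
  add_mem' := by
    rintro a b ⟨G, hG, hG'⟩ ⟨H, hH, hH'⟩
    refine ⟨fun a => G a + H a, fun p => ?_, fun q => ?_⟩
    · rw [map_add, hG, hH]
      apply Alg.ext'
      · rw [Alg.add_fst]; simp
      · rw [Alg.add_snd]
    · obtain ⟨P, hP, hP'⟩ := hG' q
      obtain ⟨Q, hQ, hQ'⟩ := hH' q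
      refine ⟨P + Q, (Polynomial.natDegree_add_le P Q).trans (max_le hP hQ), fun t => ?_⟩
      rw [Polynomial.eval_add, ← hP', ← hQ']
  zero_mem' := by
    refine ⟨fun _ => 0, fun p => ?_, fun q => ⟨0, by simp, fun t => by simp⟩⟩
    rw [map_zero]; rfl
  smul_mem' := by
    rintro c a ⟨G, hG, hG'⟩
    refine ⟨fun a => c * G a, fun p => ?_, fun q => ?_⟩
    · rw [map_smul, hG]
      apply Alg.ext'
      · rw [Alg.smul_fst]; simp
      · rw [Alg.smul_snd]
    · obtain ⟨P, hP, hP'⟩ := hG' q
      refine ⟨Polynomial.C c * P, (Polynomial.natDegree_C_mul_le c P).trans hP, fun t => ?_⟩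
      rw [Polynomial.eval_mul, Polynomial.eval_C, ← hP']

theorem W_mono {M N : ℕ} (h : M ≤ N) : (W M : Submodule K (FA K)) ≤ W N := by
  rintro y ⟨G, hG, hG'⟩
  refine ⟨G, hG, fun q => ?_⟩
  obtain ⟨P, hP, hP'⟩ := hG' q
  exact ⟨P, hP.trans h, hP'⟩

theorem val_endo (φ : FA K →ₙₐ[K] FA K) (p : ℕ → Alg K) (y : FA K) :
    val p (φ y) = val (fun i => val p (φ (X K i))) y := by
  have : (val p).comp φ = val (fun i => val p (φ (X K i))) := by
    apply hom_ext_FA
    intro i
    rfl
  rw [← this]
  rfl

theorem W_endo {N : ℕ} (φ : FA K →ₙₐ[K] FA K) {y : FA K} (hy : y ∈ (W N : Submodule K (FA K))) :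
    φ y ∈ (W N : Submodule K (FA K)) := by
  obtain ⟨G, hG, hG'⟩ := hy
  choose L hL using fun i => exists_lin (φ (X K i))
  refine ⟨fun a => G (fun i => L i a), fun p => ?_, fun q => ?_⟩
  · rw [val_endo, hG]
    simp only [hL]
  · obtain ⟨P, hP, hP'⟩ := hG' (fun i => L i q)
    refine ⟨P, hP, fun t => ?_⟩
    rw [← hP']
    have : ∀ i, L i (fun j => t * q j) = t * L i q := by
      intro i
      have : (fun j => t * q j) = t • q := rfl
      rw [this, map_smul]; rfl
    simp only [this]

/-- The elements `x² R_x^m`. -/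
noncomputable def U : ℕ → FA K
  | 0 => X K 0 * X K 0
  | (m + 1) => U m * X K 0

theorem val_U (m : ℕ) (p : ℕ → Alg K) : val p (U m) = ((0 : K), (p 0).1 ^ (m + 2)) := by
  induction m with
  | zero =>
    show val p (X K 0 * X K 0) = _
    rw [map_mul, val_X]
    apply Alg.ext'
    · rw [Alg.mul_fst]
    · rw [Alg.mul_snd]; ring
  | succ m ih =>
    show val p (U m * X K 0) = _
    rw [map_mul, val_X, ih]
    apply Alg.ext'
    · rw [Alg.mul_fst]
    · rw [Alg.mul_snd]; ring

theorem U_mem_W (m : ℕ) : U m ∈ (W (m + 2) : Submodule K (FA K)) := by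
  refine ⟨fun a => a 0 ^ (m + 2), fun p => val_U m p, fun q => ?_⟩
  refine ⟨Polynomial.C (q 0 ^ (m + 2)) * Polynomial.X ^ (m + 2), ?_, fun t => ?_⟩
  · exact Polynomial.natDegree_C_mul_X_pow_le _ _
  · simp [mul_pow, mul_comm]

theorem U_not_mem_W [Infinite K] (m : ℕ) : U m ∉ (W (m + 1) : Submodule K (FA K)) := by
  rintro ⟨G, hG, hG'⟩
  obtain ⟨P, hP, hP'⟩ := hG' (fun _ => 1)
  have h : P = Polynomial.X ^ (m + 2) := by
    apply Polynomial.funext
    intro t
    rw [← hP', Polynomial.eval_pow, Polynomial.eval_X]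
    have h1 := hG (fun _ => ((t, 0) : K × K))
    rw [val_U] at h1
    have h2 := congrArg Prod.snd h1
    simpa using h2.symm
  rw [h, Polynomial.natDegree_X_pow] at hP
  omega

theorem U_mem_firstGens {d : ℕ} (hd : 1 ≤ d) (m : ℕ) : U m ∈ firstGens (BF K) (X K) d := by
  have h0 : X K 0 ∈ firstGens (BF K) (X K) d :=
    NonUnitalAlgebra.subset_adjoin K ⟨0, hd, rfl⟩
  induction m with
  | zero => exact mul_mem h0 h0
  | succ m ih => exact mul_mem ih h0

section general
variable {F : NAlgebra K}

theorem subset_bar (S : Set F.carrier) : S ⊆ (bar F S : Set F.carrier) := by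
  intro s hs
  exact Submodule.subset_span ⟨s, hs, NonUnitalAlgHom.id K F.carrier, rfl⟩

theorem bar_endo (S : Set F.carrier) (φ : F.carrier →ₙₐ[K] F.carrier) {y : F.carrier}
    (hy : y ∈ bar F S) : φ y ∈ bar F S := by
  induction hy using Submodule.span_induction with
  | mem y hy =>
    obtain ⟨f, hf, ψ, rfl⟩ := hy
    exact Submodule.subset_span ⟨f, hf, φ.comp ψ, rfl⟩
  | zero => rw [map_zero]; exact Submodule.zero_mem _
  | add a b _ _ ha hb => rw [map_add]; exact Submodule.add_mem _ ha hb
  | smul c a _ ha => rw [map_smul]; exact Submodule.smul_mem _ c ha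

theorem bar_le {S : Set F.carrier} {M : Submodule K F.carrier} (hS : S ⊆ (M : Set F.carrier))
    (hM : ∀ (φ : F.carrier →ₙₐ[K] F.carrier) (y : F.carrier), y ∈ M → φ y ∈ M) :
    bar F S ≤ M := by
  apply Submodule.span_le.mpr
  rintro y ⟨f, hf, φ, rfl⟩
  exact hM φ f (hS hf)

theorem isTSpace_bar (x : ℕ → F.carrier) (d : ℕ) (S : Set F.carrier) :
    IsTSpace F x d (bar F S ⊓ (firstGens F x d).toSubmodule) := by
  apply le_antisymm
  · apply le_inf
    · exact subset_bar _
    · exact inf_le_right
  · apply le_inf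
    · refine inf_le_left.trans ?_
      apply bar_le
      · intro y hy; exact hy.1
      · intro φ y hy; exact bar_endo S φ hy
    · exact inf_le_right

end general

theorem exists_W {y : FA K} (hy : y ∈ bar (BF K) (Set.range (U : ℕ → FA K))) :
    ∃ N, y ∈ (W N : Submodule K (FA K)) := by
  induction hy using Submodule.span_induction with
  | mem y hy =>
    obtain ⟨f, ⟨m, rfl⟩, φ, rfl⟩ := hy
    exact ⟨m + 2, W_endo φ (U_mem_W m)⟩
  | zero => exact ⟨0, Submodule.zero_mem _⟩
  | add a b _ _ ha hb =>
    obtain ⟨M, hM⟩ := ha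
    obtain ⟨N, hN⟩ := hb
    exact ⟨max M N, Submodule.add_mem _ (W_mono (le_max_left M N) hM)
      (W_mono (le_max_right M N) hN)⟩
  | smul c a _ ha =>
    obtain ⟨M, hM⟩ := ha
    exact ⟨M, Submodule.smul_mem _ c hM⟩

theorem not_finiteBase [Infinite K] {d : ℕ} (hd : 1 ≤ d) :
    ¬ HasFiniteBase (BF K) (X K) d
      (bar (BF K) (Set.range (U : ℕ → FA K)) ⊓ (firstGens (BF K) (X K) d).toSubmodule) := by
  rintro ⟨S, hfin, hSV, hV⟩
  have hex : ∀ s ∈ S, ∃ N, s ∈ (W N : Submodule K (FA K)) := fun s hs => exists_W (hSV hs).1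
  obtain ⟨N, hN⟩ : ∃ N, ∀ s ∈ S, s ∈ (W N : Submodule K (FA K)) := by
    clear hSV hV
    induction S, hfin using Set.Finite.induction_on with
    | empty => exact ⟨0, fun s hs => absurd hs (Set.notMem_empty s)⟩
    | insert _ _ ih =>
      rename_i a S _ _
      obtain ⟨M, hM⟩ := ih (fun s hs => hex s (Set.mem_insert_of_mem _ hs))
      obtain ⟨N, hN⟩ := hex a (Set.mem_insert _ _)
      refine ⟨max M N, fun s hs => ?_⟩
      rcases Set.mem_insert_iff.mp hs with rfl | hs
      · exact W_mono (le_max_right M N) hN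
      · exact W_mono (le_max_left M N) (hM s hs)
  have hle : bar (BF K) S ≤ (W N : Submodule K (FA K)) :=
    bar_le (fun s hs => hN s hs) (fun φ y hy => W_endo φ hy)
  have hU : U N ∈ bar (BF K) (Set.range (U : ℕ → FA K)) ⊓ (firstGens (BF K) (X K) d).toSubmodule :=
    ⟨subset_bar _ ⟨N, rfl⟩, U_mem_firstGens hd N⟩
  rw [hV] at hU
  exact U_not_mem_W N (W_mono (Nat.le_succ N) (hle hU.1))

end Pool.Agent.Helper4.TSpace
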